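import Pool.Agent.L7h26.Gag.Main

set_option autoImplicit false

/-!
# Uniform comparison of Gagliardo seminorms of different orders

Q1 is true, with a constant that depends only on `N` and `p` (not on `θ`), for every measurable
function and also for `p = 1`.

Proof: `ω(h) = ∫ |f(x+h)-f(x)|^p dx` satisfies `ω(2h) ≤ 2^p ω(h)`, so the dyadic shell integrals
`g_j` of `ω(h)/|h|^{N+p}` over `2^{-j-1} < |h| ≤ 2^{-j}` are nondecreasing in `j`; and
`x ↦ (1-x) ∑ g_j x^j` is nondecreasing for nondecreasing `g`, applied to `x = 2^{-p(1-s)}`.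
-/

open MeasureTheory ENNReal

namespace Pool.Agent.Results.MP_95ea62_an.UniformComparison

/-- The Gagliardo seminorm
`[f] = (∫∫ |f(x)-f(y)|^p / |x-y|^{N+sp} dy dx)^{1/p}` on `ℝ^N`, with values in `[0,∞]`. -/
noncomputable def gagliardo (N : ℕ) (p s : ℝ) (f : EuclideanSpace ℝ (Fin N) → ℂ) : ℝ≥0∞ :=
  (∫⁻ x, ∫⁻ y, ENNReal.ofReal (‖f x - f y‖ ^ p / ‖x - y‖ ^ ((N : ℝ) + s * p))) ^ (1 / p)

theorem strong (N : ℕ) (p : ℝ) (hp : 1 ≤ p) :
    ∃ C : ℝ, 0 < C ∧ ∀ s t : ℝ, 0 < s → s < t → t < 1 →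
      ∀ f : EuclideanSpace ℝ (Fin N) → ℂ, Measurable f →
        ENNReal.ofReal (min s (1 - s) ^ (1 / p)) * gagliardo N p s f ≤
          ENNReal.ofReal C * (eLpNorm f (ENNReal.ofReal p) volume +
            ENNReal.ofReal (min t (1 - t) ^ (1 / p)) * gagliardo N p t f) := by
  have hp0 : 0 < p := by linarith
  have hip : 0 ≤ 1 / p := by positivity
  have hip1 : 1 / p ≤ 1 := by rw [div_le_one hp0]; exact hp
  set μ : Measure (EuclideanSpace ℝ (Fin N)) := volume with hμ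
  set K : ℝ := max ((4 : ℝ) ^ p) (Pool.Agent.L7h26.Gag.farC μ p).toReal with hK
  have hK0 : 0 < K := lt_of_lt_of_le (by positivity) (le_max_left _ _)
  refine ⟨K ^ (1 / p), by positivity, fun s t hs hst ht f hf => ?_⟩
  have hcore := Pool.Agent.L7h26.Gag.core μ f hf p s t hp hs hst ht
  have hfr : (Module.finrank ℝ (EuclideanSpace ℝ (Fin N)) : ℝ) = N := by simp
  have e1 := Pool.Agent.L7h26.Gag.double_eq μ f hf p s hp0 hs
  have e2 := Pool.Agent.L7h26.Gag.double_eq μ f hf p t hp0 (hs.trans hst)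
  rw [hfr] at e1 e2
  rw [← e1, ← e2] at hcore
  set Is := ∫⁻ x, ∫⁻ y, ENNReal.ofReal (‖f x - f y‖ ^ p / ‖x - y‖ ^ ((N : ℝ) + s * p)) ∂μ ∂μ
    with hIs
  set It := ∫⁻ x, ∫⁻ y, ENNReal.ofReal (‖f x - f y‖ ^ p / ‖x - y‖ ^ ((N : ℝ) + t * p)) ∂μ ∂μ
    with hIt
  have hg : ∀ r : ℝ, gagliardo N p r f =
      (∫⁻ x, ∫⁻ y, ENNReal.ofReal (‖f x - f y‖ ^ p / ‖x - y‖ ^ ((N : ℝ) + r * p)) ∂μ ∂μ)
        ^ (1 / p) := fun r => rfl
  rw [hg s, hg t, ← hIs, ← hIt]
  have hnorm : eLpNorm f (ENNReal.ofReal p) μ = (∫⁻ x, ‖f x‖ₑ ^ p ∂μ) ^ (1 / p) := by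
    rw [eLpNorm_eq_lintegral_rpow_enorm_toReal (by simpa using hp0) ENNReal.ofReal_ne_top,
      ENNReal.toReal_ofReal hp0.le]
  rw [hnorm]
  have hms : 0 < min s (1 - s) := lt_min hs (by linarith)
  have hmt : 0 < min t (1 - t) := lt_min (by linarith) (by linarith)
  have hbound : ENNReal.ofReal (min s (1 - s)) * Is ≤
      ENNReal.ofReal K * (∫⁻ x, ‖f x‖ₑ ^ p ∂μ + ENNReal.ofReal (min t (1 - t)) * It) := by
    refine hcore.trans ?_
    have a1 : ENNReal.ofReal ((4 : ℝ) ^ p) ≤ ENNReal.ofReal K :=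
      ENNReal.ofReal_le_ofReal (le_max_left _ _)
    have a2 : Pool.Agent.L7h26.Gag.farC μ p ≤ ENNReal.ofReal K := by
      rw [← ENNReal.ofReal_toReal (Pool.Agent.L7h26.Gag.farC_ne_top μ p)]
      exact ENNReal.ofReal_le_ofReal (le_max_right _ _)
    rw [mul_add, add_comm]
    gcongr
  have hpow := ENNReal.rpow_le_rpow hbound hip
  rw [ENNReal.mul_rpow_of_nonneg _ _ hip, ENNReal.mul_rpow_of_nonneg _ _ hip,
    ENNReal.ofReal_rpow_of_pos hms, ENNReal.ofReal_rpow_of_pos hK0] at hpow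
  refine hpow.trans ?_
  gcongr
  refine (ENNReal.rpow_add_le_add_rpow _ _ hip hip1).trans ?_
  rw [ENNReal.mul_rpow_of_nonneg _ _ hip, ENNReal.ofReal_rpow_of_pos hmt]

/-- **Q1 is true**, with `C` independent of `θ`. First part: for every `N` and every `p ≥ 1` there
is `C = C(N,p)` such that the inequality holds for all `0 < s < t < 1` and all (Borel) measurable
`f`, as an inequality in `[0,∞]`. Second part: the literal statement of Q1, for Schwartz
functions. -/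
theorem result :
    (∀ N : ℕ, ∀ p : ℝ, 1 ≤ p →
      ∃ C : ℝ, 0 < C ∧ ∀ s t : ℝ, 0 < s → s < t → t < 1 →
        ∀ f : EuclideanSpace ℝ (Fin N) → ℂ, Measurable f →
          ENNReal.ofReal (min s (1 - s) ^ (1 / p)) * gagliardo N p s f ≤
            ENNReal.ofReal C * (eLpNorm f (ENNReal.ofReal p) volume +
              ENNReal.ofReal (min t (1 - t) ^ (1 / p)) * gagliardo N p t f)) ∧
    (∀ N : ℕ, 1 ≤ N → ∀ p : ℝ, 1 < p → ∀ θ : ℝ, 0 < θ → θ < 1 →
      ∃ C : ℝ, 0 < C ∧ ∀ s t : ℝ, θ < s → s < t → t < 1 →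
        ∀ f : SchwartzMap (EuclideanSpace ℝ (Fin N)) ℂ,
          ENNReal.ofReal (min s (1 - s) ^ (1 / p)) * gagliardo N p s f ≤
            ENNReal.ofReal C * (eLpNorm f (ENNReal.ofReal p) volume +
              ENNReal.ofReal (min t (1 - t) ^ (1 / p)) * gagliardo N p t f)) := by
  refine ⟨fun N p hp => strong N p hp, fun N _ p hp θ hθ _ => ?_⟩
  obtain ⟨C, hC, h⟩ := strong N p hp.le
  exact ⟨C, hC, fun s t hs hst ht f =>
    h s t (hθ.trans hs) hst ht f f.continuous.measurable⟩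

end Pool.Agent.Results.MP_95ea62_an.UniformComparison
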